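import Pool.Agent.L7h14.QX.Stm

/-!
# Project QX, part DX: emptiness or independence of the flattened block with three more points
-/

set_option autoImplicit false

namespace Pool.Agent.L7h50.QX

open Finset Pool.Agent.TH176.Nag Pool.Agent.TH603.Sur Pool.Agent.TH603.Cut Pool.Agent.L7h14.QX
open Pool.Agent.TH469.SX (Fl Sur_blk Sur_rows')
open Pool.Agent.TH864.SX (Slp)

/-- a row of deficiency at least two: the excess is small and the row is long -/
theorem dfc_two {M : ℕ} {K e : ℝ} {l N : ℤ} (hK : 0 < K) (hM3 : 3 ≤ M) (hMK : (M : ℝ) < K) (hK2 : K ^ 2 = M * K + M)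
    (he0 : 0 ≤ e) (hl : 1 ≤ l)
    (hN : N = ⌊(K + 2) * l + e⌋ + ⌊((K + 2) * l + e - 1) / (K + 1)⌋)
    (h2 : N < ((M : ℤ) + 4) * l - 1) : e * (K + 2) < 1 ∧ 3 ≤ l := by
  have hK1 : 0 < K + 1 := by linarith
  have hM3R : (3 : ℝ) ≤ M := by exact_mod_cast hM3
  have hlR : (1 : ℝ) ≤ l := by exact_mod_cast hl
  obtain ⟨Y, hY⟩ : ∃ Y : ℤ, Y = ⌊(K + 2) * l + e⌋ := ⟨_, rfl⟩
  obtain ⟨U, hU⟩ : ∃ U : ℤ, U = ⌊((K + 2) * l + e - 1) / (K + 1)⌋ := ⟨_, rfl⟩
  rw [← hY, ← hU] at hN
  have hY1 := Int.lt_floor_add_one ((K + 2) * l + e)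
  have hU1 := Int.lt_floor_add_one (((K + 2) * l + e - 1) / (K + 1))
  rw [← hY] at hY1
  rw [← hU, div_lt_iff₀ hK1] at hU1
  have hNR : ((N : ℤ) : ℝ) ≤ ((M : ℝ) + 4) * l - 2 := by
    have h3 : N ≤ ((M : ℤ) + 4) * l - 2 := by linarith
    exact_mod_cast h3
  have hNe : (N : ℝ) = Y + U := by rw [hN]; push_cast; ring
  have hsq : (K + 2) ^ 2 = ((M : ℝ) + 4) * (K + 1) := by linarith
  constructor
  · -- `N (K + 1) > (K + 2) y - (K + 2) - (K + 1)`
    have h4 : (N : ℝ) * (K + 1) ≤ (((M : ℝ) + 4) * l - 2) * (K + 1) :=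
      mul_le_mul_of_nonneg_right hNR hK1.le
    have h5 : ((K + 2) * l + e) * (K + 1) < (Y + 1) * (K + 1) := mul_lt_mul_of_pos_right hY1 hK1
    have h6 : (((M : ℝ) + 4) * l - 2) * (K + 1) = (K + 2) ^ 2 * l - 2 * (K + 1) := by rw [hsq]; ring
    rw [hNe] at h4
    nlinarith
  · by_contra hcon
    push Not at hcon
    have hl2 : l ≤ 2 := by omega
    have hl2R : (l : ℝ) ≤ 2 := by exact_mod_cast hl2
    -- `K ≥ M + 1 - 1 / (K + 1)`
    have hY2 : ((M : ℤ) + 3) * l - 1 ≤ Y := by
      rw [hY]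
      apply Int.le_floor.2
      push_cast
      have h7 : ((M : ℝ) + 1 - K) * (K + 1) = 1 := by linarith
      have h8 : ((M : ℝ) + 1 - K) * 2 ≤ 1 := by
        have h9 : 0 < (M : ℝ) + 1 - K := by
          by_contra h10
          push Not at h10
          nlinarith
        nlinarith
      have h9 : 0 < (M : ℝ) + 1 - K := by
        by_contra h10
        push Not at h10
        nlinarith
      nlinarith
    have hU2 : l ≤ U := by
      rw [hU]
      apply Int.le_floor.2
      rw [le_div_iff₀ hK1]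
      nlinarith
    have : ((M : ℤ) + 4) * l = ((M : ℤ) + 3) * l + l := by ring
    omega

/-- the short rows are deficient, if the excess is small -/
theorem dfc_one {M : ℕ} {K e : ℝ} {l : ℤ} (hK : 0 < K) (hM3 : 3 ≤ M) (hMK : (M : ℝ) < K) (hK2 : K ^ 2 = M * K + M)
    (he : e * (K + 2) < 1) (hl : 1 ≤ l) (hl3 : l ≤ 3) :
    ⌊(K + 2) * l + e⌋ + ⌊((K + 2) * l + e - 1) / (K + 1)⌋ < ((M : ℤ) + 4) * l := by
  have hK1 : 0 < K + 1 := by linarith
  have hM3R : (3 : ℝ) ≤ M := by exact_mod_cast hM3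
  have hlR : (1 : ℝ) ≤ l := by exact_mod_cast hl
  have hl3R : (l : ℝ) ≤ 3 := by exact_mod_cast hl3
  have h7 : ((M : ℝ) + 1 - K) * (K + 1) = 1 := by linarith
  have h9 : 0 < (M : ℝ) + 1 - K := by
    by_contra h10
    push Not at h10
    nlinarith
  have he1 : e < (M : ℝ) + 1 - K := by
    by_contra h10
    push Not at h10
    nlinarith
  have hY : ⌊(K + 2) * l + e⌋ < ((M : ℤ) + 3) * l := by
    apply Int.floor_lt.2
    push_cast
    nlinarith
  have hU : ⌊((K + 2) * l + e - 1) / (K + 1)⌋ < l + 1 := by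
    apply Int.floor_lt.2
    rw [div_lt_iff₀ hK1]
    push_cast
    nlinarith
  have : ((M : ℤ) + 4) * l = ((M : ℤ) + 3) * l + l := by ring
  omega

theorem sum_tri (m : ℕ) : ∑ k ∈ range m, ((m : ℤ) - k) = ((m + 1).choose 2 : ℕ) := by
  induction m with
  | zero => simp
  | succ m ih =>
    rw [Nat.choose_succ_succ', Nat.choose_one_right]
    push_cast
    rw [← ih, sum_range_succ]
    have h1 : ∑ x ∈ range m, ((m : ℤ) + 1 - x) = ∑ x ∈ range m, ((m : ℤ) - x) + m := by
      rw [show ∑ x ∈ range m, ((m : ℤ) + 1 - x) = ∑ x ∈ range m, (((m : ℤ) - x) + 1) from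
        sum_congr rfl fun x _ => by ring, sum_add_distrib]
      simp
    rw [h1]
    ring

theorem card_filter_int (s : Finset ℕ) (p : ℕ → Prop) [DecidablePred p] :
    ((s.filter p).card : ℤ) = ∑ k ∈ s, if p k then (1 : ℤ) else 0 := by
  rw [card_filter]
  push_cast
  rfl

/-- the number of conditions, as the sum of the lengths of the rows -/
theorem cond_eq (M m : ℕ) :
    ((cond (fun _ : Fin (M + 4) => m) : ℕ) : ℤ) = ∑ k ∈ range m, ((M : ℤ) + 4) * ((m : ℤ) - k) := by
  unfold Pool.Agent.TH603.Sur.cond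
  rw [← mul_sum, sum_tri, sum_const, card_univ, Fintype.card_fin, smul_eq_mul]
  push_cast
  ring

/-- emptiness on enough exponents is independence -/
theorem Sur_of_card {ι : Type} [Fintype ι] {w : ι → ℕ} {T : Finset (ℤ × ℤ)} {S : Set (ℤ × ℤ)}
    (hT : (T : Set (ℤ × ℤ)) ⊆ S) (hc : ((cond w : ℕ) : ℤ) ≤ (T.card : ℤ)) (h : Emp w (T : Set (ℤ × ℤ))) :
    Sur w S := by
  obtain ⟨T0, h1, h2⟩ := exists_subset_card_eq (s := T) (n := cond w) (by exact_mod_cast hc)
  have h1' : (T0 : Set (ℤ × ℤ)) ⊆ T := by exact_mod_cast h1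
  exact ⟨T0, h1'.trans hT, h2, h.mono h1'⟩

/-- one deficient row: the block with its apex is empty -/
theorem Emp_one {M m : ℕ} {K A : ℝ} (hK : 0 < K) (hK2 : K ^ 2 = M * K + M) (h0 : (K + 2) * m ≤ A)
    (h1 : A < (K + 2) * m + 1) {k : ℕ} (hk : Def M K A m k) :
    Emp (fun _ : Fin (M + 4) => m) (Fl 1 K A ∪ {((0, 0) : ℤ × ℤ)}) := by
  have h4 : Emp (fun _ : Fin (M + 4) => m) (Pool.Agent.TH978.S13.Blk K A) :=
    Pool.Agent.TH978.S13.step3_blk hK hK2 h0 (by linarith) ⟨k, hk.1, hk.2⟩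
  refine h4.comap 1 (-1) 0 1 0 0 (by norm_num) ?_
  intro p hp
  rcases hp with hp | hp
  · obtain ⟨g1, g2, g3, g4⟩ := hp
    left
    push_cast at g3
    refine ⟨by simp only; omega, by simp only; omega, ?_⟩
    simp only
    push_cast
    linarith
  · right
    rw [Set.mem_singleton_iff] at hp ⊢
    rw [hp]
    simp

/-- the exponents `(0, 0)`, `(1, 1)` are not in the block -/
theorem notMem_zero {K A : ℝ} {T : Finset (ℤ × ℤ)} (hT : (T : Set (ℤ × ℤ)) ⊆ Fl 1 K A) :
    ((0, 0) : ℤ × ℤ) ∉ T := by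
  intro h
  have h1 := (hT (mem_coe.2 h)).1
  simp at h1

theorem notMem_one {K A : ℝ} {T : Finset (ℤ × ℤ)} (hT : (T : Set (ℤ × ℤ)) ⊆ Fl 1 K A) :
    ((1, 1) : ℤ × ℤ) ∉ T := by
  intro h
  have h1 := (hT (mem_coe.2 h)).2.2.1
  simp at h1

/-- simple points are independent on as many exponents -/
theorem Emp_simple {n : ℕ} {T : Finset (ℤ × ℤ)} (hT : T.card ≤ n) :
    Emp (fun _ : Fin n => 1) (T : Set (ℤ × ℤ)) := by
  have h0 : Emp (fun _ : Fin 0 => 1) (((∅ : Finset (ℤ × ℤ)) : Finset (ℤ × ℤ)) : Set (ℤ × ℤ)) := by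
    refine ⟨ℚ, inferInstance, inferInstance, fun _ => 1, fun _ => 1, fun _ => one_ne_zero,
      fun _ => one_ne_zero, fun f hf _ => ?_⟩
    rw [coe_empty, Set.subset_empty_iff, coe_eq_empty] at hf
    exact Finsupp.support_eq_empty.1 hf
  have h1 := Emp_union h0 T
  rw [empty_union] at h1
  refine Emp_emb (Sum.elim (fun j : Fin 0 => Fin.elim0 j) (Fin.castLE hT)) ?_ ?_ h1
  · rintro (i | i) (j | j) hij
    · exact Fin.elim0 i
    · exact Fin.elim0 i
    · exact Fin.elim0 j
    · simp only [Sum.elim_inr] at hij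
      rw [Fin.castLE_injective hT hij]
  · rintro (i | i)
    · exact Fin.elim0 i
    · exact le_rfl

/-- simple points: emptiness or independence on every set -/
theorem dich_one (n : ℕ) (S : Set (ℤ × ℤ)) : Emp (fun _ : Fin n => 1) S ∨ Sur (fun _ : Fin n => 1) S := by
  classical
  have hc : cond (fun _ : Fin n => 1) = n := by
    unfold Pool.Agent.TH603.Sur.cond
    simp
  by_cases hS : S.Finite
  · rcases le_or_gt hS.toFinset.card n with h | h
    · left
      have h1 := Emp_simple h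
      rwa [hS.coe_toFinset] at h1
    · right
      obtain ⟨T, h1, h2⟩ := exists_subset_card_eq (s := hS.toFinset) (n := n) h.le
      refine ⟨T, fun p hp => ?_, by rw [hc, h2], Emp_simple h2.le⟩
      exact hS.mem_toFinset.1 (h1 (mem_coe.1 hp))
  · right
    obtain ⟨T, h1, h2⟩ := Set.Infinite.exists_subset_card_eq hS n
    exact ⟨T, h1, by rw [hc, h2], Emp_simple h2.le⟩

/-- **DX** (from the version of ROWX with `m ≠ 1`, `Pool.Agent.L7h44.QX.rowx`) -/
theorem s_DX (hROWX : ∀ (M : ℕ) (K A : ℝ) (m : ℕ), Slp M 1 K → m ≠ 1 → 0 ≤ A → A < (K + 2) * m →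
    Emp (fun _ : Fin (M + 4) => m) (Fl 1 K A ∪ X3)) (hCNT : S_CNT) (hMAIN : S_MAIN) : S_DX := by
  classical
  intro M K A m h hM3 hA0
  by_cases hm1 : m = 1
  · rw [hm1]
    exact dich_one _ _
  have hK0 := h.K0
  have hMK := h.hMK
  have hK : ((1 : ℕ) : ℝ) * (K * (K - M)) = M := h.eq
  have hK2 : K ^ 2 = M * K + M := by
    have := h.eq
    push_cast at this
    linarith
  have hpq : 2 * 1 = 2 := rfl
  have hcard : Fintype.card (Fin (M + 4)) = M + 2 * 2 := by simp
  have hK1 : 0 < K + 1 := by linarith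
  rcases le_or_gt ((1 : ℕ) * (m : ℝ) * (K + (2 : ℕ)) + 1) ((1 : ℕ) * A) with h1 | h1
  · exact Or.inr ((Sur_blk hpq hK0 hK hcard h1).mono Set.subset_union_left)
  have h1' : A < (K + 2) * m + 1 := by
    push_cast at h1
    linarith
  rcases lt_or_ge A ((K + 2) * m) with h0 | h0
  · exact Or.inl (hROWX M K A m h hm1 hA0 h0)
  -- the deficient rows
  obtain ⟨P, hP⟩ : ∃ P : Finset ℕ, P = (range m).filter fun k => Def M K A m k := ⟨_, rfl⟩
  have hPm : ∀ k, k ∈ P ↔ Def M K A m k := by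
    intro k
    rw [hP, mem_filter, mem_range]
    exact ⟨fun h => h.2, fun h => ⟨h.1, h⟩⟩
  -- at least three
  rcases le_or_gt 3 P.card with h3 | h3
  · left
    have hmono := (P.orderEmbOfFin rfl).strictMono
    have hf : ∀ i, P.orderEmbOfFin rfl i ∈ P := P.orderEmbOfFin_mem rfl
    exact (hMAIN M K A m h hM3 h0 h1').2 (P.orderEmbOfFin rfl ⟨0, by omega⟩)
      (P.orderEmbOfFin rfl ⟨1, by omega⟩) (P.orderEmbOfFin rfl ⟨2, by omega⟩)
      (hmono (by simp [Fin.lt_def])) (hmono (by simp [Fin.lt_def])) ((hPm _).1 (hf _))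
      ((hPm _).1 (hf _)) ((hPm _).1 (hf _))
  right
  -- every deficiency is at most one
  have hdf : ∀ k : ℕ, k < m → ((M : ℤ) + 4) * ((m : ℤ) - k) - 1 ≤
      ⌊A - (K + 2) * k⌋ + ⌊(A - (K + 2) * k - 1) / (K + 1)⌋ := by
    intro k hk
    by_contra hcon
    push Not at hcon
    have hconv : ∀ k' : ℕ, A - (K + 2) * (k' : ℝ) =
        (K + 2) * (((m : ℤ) - k' : ℤ) : ℝ) + (A - (K + 2) * m) := by
      intro k'
      push_cast
      ring
    rw [hconv k] at hcon
    obtain ⟨he, hl⟩ := dfc_two (l := (m : ℤ) - k) hK0 hM3 hMK hK2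
      (by linarith : 0 ≤ A - (K + 2) * m) (by omega) rfl hcon
    have hsub : ({m - 3, m - 2, m - 1} : Finset ℕ) ⊆ P := by
      have hthree : ∀ k' : ℕ, k' < m → m ≤ k' + 3 → k' ∈ P := by
        intro k' h5 h6
        rw [hPm]
        refine ⟨h5, ?_⟩
        rw [hconv k']
        exact dfc_one hK0 hM3 hMK hK2 he (by omega) (by omega)
      intro k' hk'
      simp only [mem_insert, mem_singleton] at hk'
      rcases hk' with hk' | hk' | hk' <;> exact hthree _ (by omega) (by omega)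
    have h7 := card_le_card hsub
    rw [card_insert_of_notMem (by simp; omega), card_insert_of_notMem (by simp; omega),
      card_singleton] at h7
    omega
  -- the count
  obtain ⟨T, hT, hTc⟩ := hCNT M K A m h h0
  have hsum : ((cond (fun _ : Fin (M + 4) => m) : ℕ) : ℤ) ≤ (T.card : ℤ) + P.card := by
    rw [cond_eq]
    have h5 : ∑ k ∈ range m, ((M : ℤ) + 4) * ((m : ℤ) - k) ≤
        ∑ k ∈ range m, ((⌊A - (K + 2) * k⌋ + ⌊(A - (K + 2) * k - 1) / (K + 1)⌋) +
          if Def M K A m k then 1 else 0) := by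
      refine sum_le_sum fun k hk => ?_
      have h6 := hdf k (mem_range.1 hk)
      by_cases h7 : Def M K A m k
      · rw [if_pos h7]
        omega
      · rw [if_neg h7]
        by_contra h8
        push Not at h8
        exact h7 ⟨mem_range.1 hk, by omega⟩
    rw [sum_add_distrib, ← card_filter_int] at h5
    rw [hP]
    linarith
  interval_cases hc : P.card
  · -- no deficient row
    have hrow : ∀ k : ℕ, k < m → (M + 2 * (2 : ℕ) : ℤ) * ((m : ℤ) - k) ≤
        ⌊A - (K + (2 : ℕ)) * k⌋ +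
          ⌊(A - (K + (2 : ℕ)) * k - (K + (2 : ℕ))) / ((1 : ℕ) * (K + (2 : ℕ)) - 1)⌋ + 1 := by
      intro k hk
      have h5 : ¬ Def M K A m k := by
        rw [← hPm, card_eq_zero.1 hc]
        simp
      have h6 : ((M : ℤ) + 4) * ((m : ℤ) - k) ≤
          ⌊A - (K + 2) * k⌋ + ⌊(A - (K + 2) * k - 1) / (K + 1)⌋ := by
        by_contra h8
        push Not at h8
        exact h5 ⟨hk, h8⟩
      push_cast
      have e : (A - (K + 2) * (k : ℝ) - (K + 2)) / (1 * (K + 2) - 1) =
          (A - (K + 2) * k - 1) / (K + 1) - (1 : ℕ) := by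
        have e1 : 1 * (K + 2) - 1 = K + 1 := by ring
        rw [e1]
        field_simp
        push_cast
        ring
      rw [e, Int.floor_sub_natCast]
      push_cast
      linarith
    exact (Sur_rows' hpq hK0 hcard hrow).mono Set.subset_union_left
  · -- one deficient row
    obtain ⟨k, hk⟩ := card_eq_one.1 hc
    have hkP : Def M K A m k := by
      rw [← hPm, hk]
      simp
    have h5 := Emp_one hK0 hK2 h0 h1' hkP
    have h6 : ((insert ((0, 0) : ℤ × ℤ) T : Finset (ℤ × ℤ)) : Set (ℤ × ℤ)) ⊆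
        Fl 1 K A ∪ {((0, 0) : ℤ × ℤ)} := by
      intro p hp
      rw [coe_insert] at hp
      rcases hp with hp | hp
      · right
        exact hp
      · left
        exact hT hp
    refine Sur_of_card (h6.trans (Set.union_subset_union_right _ ?_)) ?_ (h5.mono h6)
    · intro p hp
      left
      exact hp
    · rw [card_insert_of_notMem (notMem_zero hT)]
      push_cast
      exact hsum
  · -- two deficient rows
    have hmono := (P.orderEmbOfFin rfl).strictMono
    have hf : ∀ i, P.orderEmbOfFin rfl i ∈ P := P.orderEmbOfFin_mem rfl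
    have h5 := (hMAIN M K A m h hM3 h0 h1').1 (P.orderEmbOfFin rfl ⟨0, by omega⟩)
      (P.orderEmbOfFin rfl ⟨1, by omega⟩) (hmono (by simp [Fin.lt_def]))
      ((hPm _).1 (hf _)) ((hPm _).1 (hf _))
    have h6 : ((insert ((0, 0) : ℤ × ℤ) (insert ((1, 1) : ℤ × ℤ) T) : Finset (ℤ × ℤ)) : Set (ℤ × ℤ)) ⊆
        Fl 1 K A ∪ {((0, 0) : ℤ × ℤ), (1, 1)} := by
      intro p hp
      rw [coe_insert, coe_insert] at hp
      rcases hp with hp | hp | hp
      · right
        left
        exact hp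
      · right
        right
        exact hp
      · left
        exact hT hp
    refine Sur_of_card (h6.trans (Set.union_subset_union_right _ ?_)) ?_ (h5.mono h6)
    · intro p hp
      rcases hp with hp | hp
      · left
        exact hp
      · right
        left
        exact hp
    · rw [card_insert_of_notMem, card_insert_of_notMem (notMem_one hT)]
      · push_cast at hsum ⊢
        linarith
      · rw [mem_insert]
        rintro (h7 | h7)
        · simp at h7
        · exact notMem_zero hT h7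

end Pool.Agent.L7h50.QX
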